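import Pool.Agent.K1H76.OM.Fin

/-!
# The exact asymptotic shape of `S(x) = ∑_{n ≤ x} (-2)^Ω(n)` and a formula for `α = limsup |S(x)|/x`

With `T` the sum over the odd `n ≤ x` and `G(y) = ∑_{j ≥ 0} (-1)^j T(2^j y)/(2^j y)`:
`S(2^k y)/(2^k y) = (-1)^k G(y) + O_A(k^{-A})` uniformly for `1 ≤ y < 2`, so `α = sup_{1 ≤ y < 2} |G(y)| < ∞`, and
the Fourier coefficients of `G` are explicit values of the Riemann zeta function and of an Euler product.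
-/

set_option autoImplicit false

open Finset ArithmeticFunction Filter Topology MeasureTheory

namespace Pool.Agent.Results.MP_88bd62_nt.ExactFormula

/-- `S(x) = ∑_{1 ≤ n ≤ x} (-2)^Ω(n)` -/
noncomputable def S (x : ℝ) : ℝ := ∑ n ∈ Icc 1 ⌊x⌋₊, (-2 : ℝ) ^ (cardFactors n)

/-- the same sum over the odd `n ≤ x` -/
noncomputable def T (x : ℝ) : ℝ := ∑ n ∈ (Icc 1 ⌊x⌋₊).filter (fun n => Odd n), (-2 : ℝ) ^ (cardFactors n)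

/-- `G(y) = ∑_{j ≥ 0} (-1)^j T(2^j y)/(2^j y)` -/
noncomputable def G (y : ℝ) : ℝ := ∑' j : ℕ, (-1 : ℝ) ^ j * (T (2 ^ j * y) / (2 ^ j * y))

/-- `α = limsup |S(x)|/x`, in the extended reals -/
noncomputable def alpha : EReal := limsup (fun x : ℝ => ((|S x| / x : ℝ) : EReal)) atTop

/-- `M = sup_{1 ≤ y < 2} |G(y)|` -/
noncomputable def M : ℝ := sSup ((fun y => |G y|) '' Set.Ico 1 2)

/-- `s_k = 1 + i π (2k+1)/log 2` -/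
noncomputable def sk (k : ℤ) : ℂ := 1 + Complex.I * (Real.pi * (2 * k + 1) / Real.log 2)

theorem result :
    (∀ y : ℝ, 1 ≤ y → Summable (fun j : ℕ => |T (2 ^ j * y) / (2 ^ j * y)|)) ∧
    (∀ A : ℕ, ∃ C : ℝ, ∀ x : ℝ, 1 ≤ x → |T x| ≤ C * x / (1 + Real.log x) ^ A) ∧
    (∀ A : ℕ, ∃ C : ℝ, ∀ k : ℕ, ∀ y : ℝ, 1 ≤ y → y < 2 →
      |S (2 ^ k * y) / (2 ^ k * y) - (-1) ^ k * G y| ≤ C / ((k : ℝ) + 1) ^ A) ∧
    BddAbove ((fun y => |G y|) '' Set.Ico 1 2) ∧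
    alpha = (M : EReal) ∧
    limsup (fun x : ℝ => ((S x / x : ℝ) : EReal)) atTop = (M : EReal) ∧
    liminf (fun x : ℝ => ((S x / x : ℝ) : EReal)) atTop = ((-M : ℝ) : EReal) ∧
    (∀ k : ℤ, Multipliable fun p : Nat.Primes => if (p : ℕ) = 2 then (1 : ℂ) else
      (1 - 3 * ((p : ℕ) : ℂ) ^ (-(2 * sk k)) + 2 * ((p : ℕ) : ℂ) ^ (-(3 * sk k)))⁻¹) ∧
    ∀ k : ℤ, ∫ y in (1:ℝ)..2, (G y : ℂ) * (y : ℂ) ^ (-(sk k)) =
      4 / (9 * sk k * riemannZeta (sk k) ^ 2) *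
        ∏' p : Nat.Primes, (if (p : ℕ) = 2 then (1 : ℂ) else
          (1 - 3 * ((p : ℕ) : ℂ) ^ (-(2 * sk k)) + 2 * ((p : ℕ) : ℂ) ^ (-(3 * sk k)))⁻¹) := by
  refine ⟨Pool.Agent.K1H76.OM.lim.1, ?_, Pool.Agent.K1H76.OM.lim.2, Pool.Agent.K1H76.OM.sup.1,
    Pool.Agent.K1H76.OM.sup.2.1, Pool.Agent.K1H76.OM.sup.2.2.1, Pool.Agent.K1H76.OM.sup.2.2.2,
    fun k => (Pool.Agent.K1H94.OM.t_F4 Pool.Agent.K1H76.OM.hx Pool.Agent.K1H76.OM.hs (sk k)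
      (by rw [show (sk k).re = 1 from Pool.Agent.K1H10.OM.sk_re k]; norm_num)).2.multipliable,
    Pool.Agent.K1H76.OM.fc⟩
  intro A
  obtain ⟨C, hC⟩ := Pool.Agent.K1H76.OM.good_ao A
  refine ⟨C, fun x hx => ?_⟩
  have h := hC x hx
  have e : T x = ∑ n ∈ Icc 1 ⌊x⌋₊, Pool.Agent.K1H76.OM.ao n := by
    unfold T
    rw [Finset.sum_filter]
    rfl
  rw [e]
  exact h

end Pool.Agent.Results.MP_88bd62_nt.ExactFormula
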